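/-
helper22.  [R2-2] of helper7's part R2 of MP_7b8095_gt: the horospherical distance `fl`.
-/
import Pool.Agent.helper7.WB.RDefs

set_option autoImplicit false
open Matrix MeasureTheory

namespace Pool.Agent.helper7.WB
open Pool.Agent.helper21.WB

namespace Fl

theorem null_norm {ξ : I → ℝ} (h : NullF ξ) : ∑ i : Fin 4, ξ (Sum.inl i) ^ 2 = ξ o ^ 2 := by
  have h1 := h.1
  rw [bl_apply] at h1
  have e : ∑ i : Fin 4, ξ (Sum.inl i) * ξ (Sum.inl i) = ∑ i : Fin 4, ξ (Sum.inl i) ^ 2 :=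
    Finset.sum_congr rfl (fun i _ => by ring)
  rw [e] at h1; nlinarith

theorem pos {ξ : I → ℝ} (h : NullF ξ) (y : X) : 0 < hb ξ y := by
  unfold hb
  rw [bl_comm]
  have := bl_neg (v := lift y) (w := ξ) (by rw [bl_lift]; norm_num) (by linarith [lift_o_pos y])
    h.1.le h.2
  linarith

theorem hact {ξ : I → ℝ} {g : GLI} (hg : InG g) (y : X) : hb (g.val *ᵥ ξ) (act g y) = hb ξ y := by
  unfold hb
  rw [lift_act hg, bl_mulVec hg.1]

/-- the form is positive semidefinite on `ξ^⊥` -/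
theorem semidef {ξ : I → ℝ} (h : NullF ξ) (v : I → ℝ) (hv : bl ξ v = 0) : 0 ≤ bl v v := by
  have hn := null_norm h
  have h0 := h.2
  rw [bl_apply] at hv ⊢
  have e : ∑ i : Fin 4, v (Sum.inl i) * v (Sum.inl i) = ∑ i : Fin 4, v (Sum.inl i) ^ 2 :=
    Finset.sum_congr rfl (fun i _ => by ring)
  rw [e]
  have cs := cs_spatial (fun i => ξ (Sum.inl i)) (fun i => v (Sum.inl i))
  rw [hn] at cs
  have e2 : (∑ i : Fin 4, ξ (Sum.inl i) * v (Sum.inl i)) = ξ o * v o := by linarith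
  rw [e2, mul_pow] at cs
  have h1 : 0 < ξ o ^ 2 := by positivity
  have := le_of_mul_le_mul_left cs h1
  nlinarith

/-- Cauchy–Schwarz on `ξ^⊥` -/
theorem cs {ξ : I → ℝ} (h : NullF ξ) (v w : I → ℝ) (hv : bl ξ v = 0) (hw : bl ξ w = 0) :
    bl v w ^ 2 ≤ bl v v * bl w w := by
  have key : ∀ t : ℝ, 0 ≤ bl w w * (t * t) + (2 * bl v w) * t + bl v v := by
    intro t
    have h1 := semidef h (v + t • w) (by rw [bl_add_right, bl_smul_right, hv, hw]; ring)
    have h2 : bl (v + t • w) (v + t • w) = bl w w * (t * t) + (2 * bl v w) * t + bl v v := by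
      simp only [bl_add_left, bl_add_right, bl_smul_left, bl_smul_right]
      rw [bl_comm w v]; ring
    rw [← h2]; exact h1
  have := discrim_le_zero key
  rw [discrim] at this
  nlinarith

/-- the normalised vector -/
noncomputable def ht (ξ : I → ℝ) (x : X) : I → ℝ := (hb ξ x)⁻¹ • lift x

theorem bl_ht {ξ : I → ℝ} (h : NullF ξ) (x : X) : bl ξ (ht ξ x) = -1 := by
  have := pos h x
  unfold ht
  rw [bl_smul_right, show bl ξ (lift x) = - hb ξ x by unfold hb; ring]
  field_simp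

theorem perp {ξ : I → ℝ} (h : NullF ξ) (x y : X) : bl ξ (ht ξ x - ht ξ y) = 0 := by
  rw [bl_sub_right, bl_ht h, bl_ht h]; ring

theorem arg_eq {ξ : I → ℝ} (h : NullF ξ) (x y : X) :
    2 * ch x y / (hb ξ x * hb ξ y) - 1 / hb ξ x ^ 2 - 1 / hb ξ y ^ 2 =
      bl (ht ξ x - ht ξ y) (ht ξ x - ht ξ y) := by
  have hx := pos h x
  have hy := pos h y
  unfold ht ch
  simp only [bl_sub_left, bl_sub_right, bl_smul_left, bl_smul_right, bl_lift]
  rw [bl_comm (lift y) (lift x)]
  field_simp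
  ring

theorem fl_eq {ξ : I → ℝ} (h : NullF ξ) (x y : X) :
    fl ξ x y = Real.sqrt (bl (ht ξ x - ht ξ y) (ht ξ x - ht ξ y)) := by
  unfold fl
  rw [arg_eq h]

theorem fl_sq {ξ : I → ℝ} (h : NullF ξ) (x y : X) :
    fl ξ x y ^ 2 = bl (ht ξ x - ht ξ y) (ht ξ x - ht ξ y) := by
  rw [fl_eq h, Real.sq_sqrt (semidef h _ (perp h x y))]

/-- adding a multiple of `ξ` does not change the form on `ξ^⊥` -/
theorem bl_add_null {ξ : I → ℝ} (h : NullF ξ) (v : I → ℝ) (hv : bl ξ v = 0) (c : ℝ) :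
    bl (v + c • ξ) (v + c • ξ) = bl v v := by
  simp only [bl_add_left, bl_add_right, bl_smul_left, bl_smul_right]
  rw [bl_comm v ξ, hv, h.1]; ring

/-- a vector of norm `-1` with positive height is future directed -/
theorem future {ξ v : I → ℝ} (h : NullF ξ) (hv : bl v v = -1) (hp : 0 < - bl ξ v) : 0 < v o := by
  have h1 : v o ≠ 0 := by
    intro h0
    rw [bl_apply, h0] at hv
    have : 0 ≤ ∑ i : Fin 4, v (Sum.inl i) * v (Sum.inl i) :=
      Finset.sum_nonneg (fun i _ => mul_self_nonneg _)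
    linarith
  by_contra hc
  have h2 : v o < 0 := lt_of_le_of_ne (not_lt.1 hc) h1
  have h3 := bl_neg (v := (-1 : ℝ) • v) (w := ξ) (by rw [bl_smul_left, bl_smul_right, hv]; norm_num)
    (by simpa using h2) h.1.le h.2
  rw [bl_smul_left, bl_comm] at h3
  linarith

/-- the point with a given lift -/
theorem exists_pt {ξ v : I → ℝ} (h : NullF ξ) (hv : bl v v = -1) (hp : 0 < - bl ξ v) :
    ∃ z : X, lift z = v := ⟨fun i => v (Sum.inl i), (eq_lift hv (future h hv hp)).symm⟩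

theorem lmv {ξ : I → ℝ} (h : NullF ξ) (t : ℝ) (y : X) :
    lift (mv ξ t y) = Real.exp (-t) • lift y + (Real.sinh t / hb ξ y) • ξ := by
  have hy := pos h y
  have h1 : bl ξ (lift y) = - hb ξ y := by unfold hb; ring
  have hbl : bl (Real.exp (-t) • lift y + (Real.sinh t / hb ξ y) • ξ)
      (Real.exp (-t) • lift y + (Real.sinh t / hb ξ y) • ξ) = -1 := by
    simp only [bl_add_left, bl_add_right, bl_smul_left, bl_smul_right, bl_lift]
    rw [bl_comm (lift y) ξ, h1, h.1]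
    have h2 : Real.sinh t / hb ξ y * hb ξ y = Real.sinh t := by field_simp
    have h3 : Real.exp (-t) * Real.exp (-t) + 2 * Real.exp (-t) * Real.sinh t = 1 := by
      rw [Real.sinh_eq]
      have : Real.exp t * Real.exp (-t) = 1 := by rw [← Real.exp_add]; simp
      nlinarith
    have e : Real.exp (-t) * (Real.exp (-t) * -1 + Real.sinh t / hb ξ y * -hb ξ y) +
      Real.sinh t / hb ξ y * (Real.exp (-t) * -hb ξ y + Real.sinh t / hb ξ y * 0) =
      - (Real.exp (-t) * Real.exp (-t) + 2 * Real.exp (-t) * (Real.sinh t / hb ξ y * hb ξ y)) := by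
      ring
    rw [e, h2, h3]
  have hbp : 0 < - bl ξ (Real.exp (-t) • lift y + (Real.sinh t / hb ξ y) • ξ) := by
    rw [bl_add_right, bl_smul_right, bl_smul_right, h1, h.1]
    have := Real.exp_pos (-t)
    have : 0 < Real.exp (-t) * hb ξ y := by positivity
    linarith
  have := eq_lift hbl (future h hbl hbp)
  rw [this]
  congr 1

theorem hmv {ξ : I → ℝ} (h : NullF ξ) (t : ℝ) (y : X) :
    hb ξ (mv ξ t y) = Real.exp (-t) * hb ξ y := by
  have h1 : bl ξ (lift y) = - hb ξ y := by unfold hb; ring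
  rw [hb, lmv h, bl_add_right, bl_smul_right, bl_smul_right, h.1, h1]; ring

theorem ht_mv {ξ : I → ℝ} (h : NullF ξ) (t : ℝ) (y : X) :
    ∃ c : ℝ, ht ξ (mv ξ t y) = ht ξ y + c • ξ := by
  have hy := pos h y
  refine ⟨(Real.exp (-t) * hb ξ y)⁻¹ * (Real.sinh t / hb ξ y), ?_⟩
  have he := Real.exp_pos (-t)
  unfold ht
  rw [hmv h, lmv h, smul_add, smul_smul, smul_smul]
  congr 2
  field_simp

end Fl

open Fl

theorem fl_nonneg (ξ : I → ℝ) (x y : X) : 0 ≤ fl ξ x y := Real.sqrt_nonneg _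

theorem fl_comm (ξ : I → ℝ) (x y : X) : fl ξ x y = fl ξ y x := by
  unfold fl
  rw [ch_comm x y, mul_comm (hb ξ x) (hb ξ y)]
  congr 1; ring

theorem ch_eq_fl {ξ : I → ℝ} (h : NullF ξ) (x y : X) :
    ch x y = Real.cosh (Real.log (hb ξ x) - Real.log (hb ξ y)) +
      hb ξ x * hb ξ y * fl ξ x y ^ 2 / 2 := by
  have hx := pos h x
  have hy := pos h y
  rw [fl_sq h, ← arg_eq h, Real.cosh_eq, Real.exp_sub, neg_sub, Real.exp_sub, Real.exp_log hx,
    Real.exp_log hy]
  field_simp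
  ring

theorem fl_triangle {ξ : I → ℝ} (h : NullF ξ) (x y z : X) : fl ξ x z ≤ fl ξ x y + fl ξ y z := by
  have h1 : ht ξ x - ht ξ z = (ht ξ x - ht ξ y) + (ht ξ y - ht ξ z) := by abel
  have hc := cs h _ _ (perp h x y) (perp h y z)
  have e1 := fl_sq h x y
  have e2 := fl_sq h y z
  have e3 := fl_sq h x z
  rw [h1, bl_add_left, bl_add_right, bl_add_right, bl_comm (ht ξ y - ht ξ z) (ht ξ x - ht ξ y)] at e3
  rw [← e1, ← e2, ← mul_pow] at hc
  have n1 : 0 ≤ fl ξ x y := Real.sqrt_nonneg _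
  have n2 : 0 ≤ fl ξ y z := Real.sqrt_nonneg _
  have h2 := abs_le_of_sq_le_sq hc (by positivity)
  have h3 := (abs_le.1 h2).2
  apply le_of_sq_le_sq _ (by positivity)
  nlinarith

theorem fl_mv {ξ : I → ℝ} (h : NullF ξ) (s t : ℝ) (x y : X) :
    fl ξ (mv ξ s x) (mv ξ t y) = fl ξ x y := by
  obtain ⟨c, hc⟩ := ht_mv h s x
  obtain ⟨d, hd⟩ := ht_mv h t y
  rw [fl_eq h, fl_eq h, hc, hd]
  congr 1
  have e : ht ξ x + c • ξ - (ht ξ y + d • ξ) = (ht ξ x - ht ξ y) + (c - d) • ξ := by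
    rw [sub_smul]; abel
  rw [e, bl_add_null h _ (perp h x y)]

theorem fl_act {ξ : I → ℝ} (h : NullF ξ) {g : GLI} (hg : InG g) (x y : X) :
    fl (g.val *ᵥ ξ) (act g x) (act g y) = fl ξ x y := by
  unfold fl
  rw [hact hg, hact hg, ch_act hg]

/-- points on the horosphere `hb ξ = 1` can be joined by steps of equal length on the horosphere -/
theorem fl_subdiv {ξ : I → ℝ} (h : NullF ξ) {x y : X} (hx : hb ξ x = 1) (hy : hb ξ y = 1) (m : ℕ)
    (hm : 0 < m) : ∃ z : ℕ → X, z 0 = x ∧ z m = y ∧ (∀ k, hb ξ (z k) = 1) ∧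
      ∀ k, k < m → fl ξ (z k) (z (k + 1)) = fl ξ x y / m := by
  have bx : bl ξ (lift x) = -1 := by unfold hb at hx; linarith
  have bY : bl ξ (lift y) = -1 := by unfold hb at hy; linarith
  have hch : bl (lift x) (lift y) = - ch x y := by unfold ch; ring
  have key : ∀ s : ℝ, ∃ z : X, lift z = (1 - s) • lift x + s • lift y +
      (s * (1 - s) * (1 - ch x y)) • ξ := by
    intro s
    apply exists_pt h
    · simp only [bl_add_left, bl_add_right, bl_smul_left, bl_smul_right, bl_lift]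
      rw [bl_comm (lift x) ξ, bl_comm (lift y) ξ, bl_comm (lift y) (lift x), bx, bY, hch, h.1]
      ring
    · rw [bl_add_right, bl_add_right, bl_smul_right, bl_smul_right, bl_smul_right, bx, bY, h.1]
      ring_nf; norm_num
  choose Z hZ using key
  have hbZ : ∀ s, hb ξ (Z s) = 1 := by
    intro s
    rw [hb, hZ, bl_add_right, bl_add_right, bl_smul_right, bl_smul_right, bl_smul_right, bx, bY, h.1]
    ring
  have hm' : (0 : ℝ) < m := by exact_mod_cast hm
  refine ⟨fun k => Z ((k : ℝ) / m), ?_, ?_, fun k => hbZ _, ?_⟩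
  · apply lift_injective
    simp only [hZ]
    simp
  · apply lift_injective
    simp only [hZ]
    rw [div_self hm'.ne']
    simp
  · intro k _
    have n1 : 0 ≤ fl ξ x y := Real.sqrt_nonneg _
    have n2 : 0 ≤ fl ξ (Z ((k : ℝ) / m)) (Z (((k + 1 : ℕ) : ℝ) / m)) := Real.sqrt_nonneg _
    apply (pow_left_inj₀ n2 (by positivity) (two_ne_zero)).1
    rw [fl_sq h, div_pow, fl_sq h]
    set s : ℝ := (k : ℝ) / m with hs
    have hs' : ((k + 1 : ℕ) : ℝ) / m = s + 1 / m := by rw [hs]; push_cast; field_simp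
    rw [hs']
    set u : ℝ := 1 / m with hu
    have e : ht ξ (Z s) - ht ξ (Z (s + u)) =
        u • (ht ξ x - ht ξ y) + (s * (1 - s) * (1 - ch x y) -
          (s + u) * (1 - (s + u)) * (1 - ch x y)) • ξ := by
      unfold ht
      rw [hbZ, hbZ, hx, hy, hZ, hZ]
      ext i
      simp only [inv_one, one_smul, Pi.sub_apply, Pi.add_apply, Pi.smul_apply, smul_eq_mul]
      ring
    rw [e, bl_add_null h _ (by rw [bl_smul_right, perp h]; ring), bl_smul_left, bl_smul_right, hu]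
    field_simp

end Pool.Agent.helper7.WB
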