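import Pool.Agent.helper31.WB.NDefs
import Pool.Agent.helper2.WB.B4b
import Pool.Agent.helper19.WB.B1a

/-! Part N3: the integral of exp (- kappa mu(Lens)). -/

set_option autoImplicit false
open Matrix MeasureTheory Set

namespace Pool.Agent.helper21.WB.NN

open B4b

namespace N3

theorem measurable_hd0 : Measurable (fun y : X => hd 0 y) :=
  (continuous_hd.comp (Continuous.prodMk_right 0)).measurable

theorem Lens_ne_top (y : X) : μ (Lens 0 y) ≠ ⊤ := by
  have h : Lens 0 y ⊆ {z | hd 0 z ≤ hd 0 y - 1 / 20} := fun z hz => hz.1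
  exact ne_top_of_le_ne_top (μ_ball_ne_top _) (measure_mono h)

theorem exp_tail {k : ℝ} (hk : 0 < k) (w : ℝ) :
    ENNReal.ofReal (Real.exp (-(k * w))) = ∫⁻ u in Ioi w, ENNReal.ofReal (k * Real.exp (-(k * u))) := by
  have h1 := integral_exp_mul_Ioi (a := -k) (by linarith) w
  have h2 : IntegrableOn (fun u => Real.exp (-k * u)) (Ioi w) := by
    exact integrableOn_exp_mul_Ioi (by linarith) w
  have h3 : IntegrableOn (fun u => k * Real.exp (-(k * u))) (Ioi w) := by
    have := h2.const_mul k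
    refine this.congr (Filter.Eventually.of_forall fun u => ?_)
    simp
  rw [← ofReal_integral_eq_lintegral_ofReal h3
    (Filter.Eventually.of_forall fun u => by positivity)]
  congr 1
  rw [integral_const_mul]
  have h4 : ∫ u in Ioi w, Real.exp (-(k * u)) = ∫ u in Ioi w, Real.exp (-k * u) := by
    congr 1; ext u; congr 1; ring
  rw [h4, h1]
  field_simp

theorem gamma_int {k : ℝ} (hk : 0 < k) (c : ℝ) (hc : 0 ≤ c) :
    ∫⁻ u in Ioi (0 : ℝ), ENNReal.ofReal (k * Real.exp (-(k * u))) * ENNReal.ofReal (c * u ^ 2) =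
      ENNReal.ofReal (2 * c / k ^ 2) := by
  have h1 := Real.integral_rpow_mul_exp_neg_mul_Ioi (a := 3) (r := k) (by norm_num) hk
  have h0 : (Real.Gamma 3) = 2 := by
    have := Real.Gamma_nat_eq_factorial 2
    rw [show (3 : ℝ) = ((2 : ℕ) : ℝ) + 1 by norm_num, this]
    simp [Nat.factorial]
  have h2 : (∫ u in Ioi (0 : ℝ), u ^ ((3 : ℝ) - 1) * Real.exp (-(k * u))) = 2 / k ^ 3 := by
    rw [h1, h0]
    have : (1 / k) ^ (3 : ℝ) = 1 / k ^ 3 := by
      rw [show (3 : ℝ) = ((3 : ℕ) : ℝ) by norm_num, Real.rpow_natCast]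
      rw [div_pow, one_pow]
    rw [this]; ring
  have h3 : IntegrableOn (fun u : ℝ => u ^ ((3 : ℝ) - 1) * Real.exp (-(k * u))) (Ioi 0) := by
    apply Integrable.of_integral_ne_zero
    rw [h2]; positivity
  have h4 : IntegrableOn (fun u : ℝ => k * Real.exp (-(k * u)) * (c * u ^ 2)) (Ioi 0) := by
    have := h3.const_mul (k * c)
    refine this.congr (Filter.Eventually.of_forall fun u => ?_)
    simp only
    rw [show ((3 : ℝ) - 1) = ((2 : ℕ) : ℝ) by norm_num, Real.rpow_natCast]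
    ring
  have h5 : ∫⁻ u in Ioi (0 : ℝ), ENNReal.ofReal (k * Real.exp (-(k * u))) * ENNReal.ofReal (c * u ^ 2) =
      ∫⁻ u in Ioi (0 : ℝ), ENNReal.ofReal (k * Real.exp (-(k * u)) * (c * u ^ 2)) := by
    refine lintegral_congr fun u => ?_
    rw [← ENNReal.ofReal_mul (by positivity)]
  rw [h5, ← ofReal_integral_eq_lintegral_ofReal h4
    (Filter.Eventually.of_forall fun u => by positivity)]
  congr 1
  have h6 : ∀ u : ℝ, k * Real.exp (-(k * u)) * (c * u ^ 2) =
      (k * c) * (u ^ ((3 : ℝ) - 1) * Real.exp (-(k * u))) := by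
    intro u
    rw [show ((3 : ℝ) - 1) = ((2 : ℕ) : ℝ) by norm_num, Real.rpow_natCast]
    ring
  simp_rw [h6]
  rw [integral_const_mul, h2]
  field_simp

theorem ball_small (u : ℝ) : μ {y | Real.exp (3 / 2 * hd 0 y) < u} ≤
    (Ioi (0 : ℝ)).indicator (fun u => ENNReal.ofReal (Real.pi ^ 2 / 12 * u ^ 2)) u := by
  by_cases hu : 1 < u
  · have h1 : {y | Real.exp (3 / 2 * hd 0 y) < u} ⊆ {y | hd 0 y ≤ 2 / 3 * Real.log u} := by
      intro y hy
      have := (Real.lt_log_iff_exp_lt (by linarith)).2 hy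
      simp only [Set.mem_ofPred_eq]
      linarith
    have h2 : 0 ≤ 2 / 3 * Real.log u := by
      have := Real.log_pos hu
      positivity
    have h3 := vb_le _ h2
    have h4 : Real.exp (3 * (2 / 3 * Real.log u)) = u ^ 2 := by
      rw [show 3 * (2 / 3 * Real.log u) = Real.log u + Real.log u by ring, Real.exp_add,
        Real.exp_log (by linarith)]
      ring
    rw [h4] at h3
    rw [indicator_of_mem (show u ∈ Ioi (0 : ℝ) by simp; linarith)]
    calc μ {y | Real.exp (3 / 2 * hd 0 y) < u} ≤ μ {y | hd 0 y ≤ 2 / 3 * Real.log u} :=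
          measure_mono h1
      _ = ENNReal.ofReal (vb (2 / 3 * Real.log u)) := by
          rw [vb, ENNReal.ofReal_toReal (μ_ball_ne_top _)]
      _ ≤ _ := ENNReal.ofReal_le_ofReal h3
  · have h1 : {y | Real.exp (3 / 2 * hd 0 y) < u} = ∅ := by
      ext y
      simp only [Set.mem_ofPred_eq, mem_empty_iff_false, iff_false, not_lt]
      have : 1 ≤ Real.exp (3 / 2 * hd 0 y) := by
        apply Real.one_le_exp
        have := hd_nonneg 0 y
        linarith
      linarith
    rw [h1]; simp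

theorem int_exp {k : ℝ} (hk : 0 < k) :
    ∫⁻ y, ENNReal.ofReal (Real.exp (-(k * Real.exp (3 / 2 * hd 0 y)))) ∂μ ≤
      ENNReal.ofReal (Real.pi ^ 2 / 6 / k ^ 2) := by
  have hm : Measurable (fun y : X => Real.exp (3 / 2 * hd 0 y)) :=
    Real.measurable_exp.comp (measurable_hd0.const_mul _)
  have hg : Measurable (fun u : ℝ => ENNReal.ofReal (k * Real.exp (-(k * u)))) := by fun_prop
  set S : Set (X × ℝ) := {p | Real.exp (3 / 2 * hd 0 p.1) < p.2} with hS
  have hSm : MeasurableSet S := measurableSet_lt (hm.comp measurable_fst) measurable_snd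
  have hFm : Measurable (S.indicator fun p : X × ℝ => ENNReal.ofReal (k * Real.exp (-(k * p.2)))) :=
    (hg.comp measurable_snd).indicator hSm
  calc ∫⁻ y, ENNReal.ofReal (Real.exp (-(k * Real.exp (3 / 2 * hd 0 y)))) ∂μ
      = ∫⁻ y, ∫⁻ u, S.indicator (fun p : X × ℝ => ENNReal.ofReal (k * Real.exp (-(k * p.2)))) (y, u)
          ∂volume ∂μ := by
        refine lintegral_congr fun y => ?_
        rw [exp_tail hk, ← lintegral_indicator measurableSet_Ioi]
        rfl
    _ = ∫⁻ u, ∫⁻ y, S.indicator (fun p : X × ℝ => ENNReal.ofReal (k * Real.exp (-(k * p.2)))) (y, u)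
          ∂μ ∂volume := lintegral_lintegral_swap hFm.aemeasurable
    _ = ∫⁻ u : ℝ, ENNReal.ofReal (k * Real.exp (-(k * u))) *
          μ {y | Real.exp (3 / 2 * hd 0 y) < u} := by
        refine lintegral_congr fun u => ?_
        have h1 : ∀ y : X, S.indicator (fun p : X × ℝ => ENNReal.ofReal (k * Real.exp (-(k * p.2))))
            (y, u) = {y : X | Real.exp (3 / 2 * hd 0 y) < u}.indicator
              (fun _ => ENNReal.ofReal (k * Real.exp (-(k * u)))) y := fun y => rfl
        simp_rw [h1]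
        rw [lintegral_indicator_const (measurableSet_lt hm measurable_const)]
    _ ≤ ∫⁻ u : ℝ, ENNReal.ofReal (k * Real.exp (-(k * u))) *
          (Ioi (0 : ℝ)).indicator (fun u => ENNReal.ofReal (Real.pi ^ 2 / 12 * u ^ 2)) u :=
        lintegral_mono fun u => mul_le_mul_right (ball_small u) _
    _ = ∫⁻ u in Ioi (0 : ℝ), ENNReal.ofReal (k * Real.exp (-(k * u))) *
          ENNReal.ofReal (Real.pi ^ 2 / 12 * u ^ 2) := by
        rw [← lintegral_indicator measurableSet_Ioi]
        refine lintegral_congr fun u => ?_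
        by_cases hu : u ∈ Ioi (0 : ℝ)
        · rw [indicator_of_mem hu, indicator_of_mem hu]
        · rw [indicator_of_notMem hu, indicator_of_notMem hu, mul_zero]
    _ = _ := by
        rw [gamma_int hk _ (by positivity)]
        congr 1; ring

end N3

theorem int_lens {t₀ c₀ : ℝ} (hc : 0 < c₀) (h : ∀ x y, t₀ ≤ hd x y →
      ENNReal.ofReal (c₀ * Real.exp (3 / 2 * hd x y)) ≤ μ (Lens x y))
    {κ : ℝ} (hκ : 0 < κ) (D : ℝ) :
    ∫⁻ y in bl0 0 D, ENNReal.ofReal (Real.exp (-(κ * (μ (Lens 0 y)).toReal))) ∂μ ≤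
      ENNReal.ofReal (vb t₀ + Real.pi ^ 2 / 6 / (κ * c₀) ^ 2) := by
  have hpt : ∀ y, ENNReal.ofReal (Real.exp (-(κ * (μ (Lens 0 y)).toReal))) ≤
      {y : X | hd 0 y ≤ t₀}.indicator 1 y +
        ENNReal.ofReal (Real.exp (-(κ * c₀ * Real.exp (3 / 2 * hd 0 y)))) := by
    intro y
    by_cases hy : hd 0 y ≤ t₀
    · rw [indicator_of_mem (show y ∈ {y : X | hd 0 y ≤ t₀} from hy)]
      refine le_add_right ?_
      simp only [Pi.one_apply]
      rw [← ENNReal.ofReal_one]
      apply ENNReal.ofReal_le_ofReal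
      rw [Real.exp_le_one_iff, neg_nonpos]
      positivity
    · refine le_add_left ?_
      apply ENNReal.ofReal_le_ofReal
      apply Real.exp_le_exp.2
      have h1 := h 0 y (not_le.1 hy).le
      rw [ENNReal.ofReal_le_iff_le_toReal (N3.Lens_ne_top y)] at h1
      have h2 := mul_le_mul_of_nonneg_left h1 hκ.le
      nlinarith
  calc ∫⁻ y in bl0 0 D, ENNReal.ofReal (Real.exp (-(κ * (μ (Lens 0 y)).toReal))) ∂μ
      ≤ ∫⁻ y in bl0 0 D, ({y : X | hd 0 y ≤ t₀}.indicator 1 y +
        ENNReal.ofReal (Real.exp (-(κ * c₀ * Real.exp (3 / 2 * hd 0 y))))) ∂μ :=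
        lintegral_mono hpt
    _ ≤ ∫⁻ y, ({y : X | hd 0 y ≤ t₀}.indicator 1 y +
        ENNReal.ofReal (Real.exp (-(κ * c₀ * Real.exp (3 / 2 * hd 0 y))))) ∂μ :=
        setLIntegral_le_lintegral _ _
    _ = μ {y : X | hd 0 y ≤ t₀} +
        ∫⁻ y, ENNReal.ofReal (Real.exp (-(κ * c₀ * Real.exp (3 / 2 * hd 0 y)))) ∂μ := by
        rw [lintegral_add_left (measurable_one.indicator (measurableSet_hball0 t₀)),
          lintegral_indicator_one (measurableSet_hball0 t₀)]
    _ ≤ ENNReal.ofReal (vb t₀) + ENNReal.ofReal (Real.pi ^ 2 / 6 / (κ * c₀) ^ 2) := by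
        refine add_le_add ?_ (N3.int_exp (mul_pos hκ hc))
        rw [vb, ENNReal.ofReal_toReal (μ_ball_ne_top _)]
    _ = _ := by
        rw [← ENNReal.ofReal_add (by rw [vb]; exact ENNReal.toReal_nonneg) (by positivity)]

end Pool.Agent.helper21.WB.NN
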