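import Mathlib

/-! Part N1: product measures. -/

set_option autoImplicit false
open MeasureTheory

namespace Pool.Agent.helper21.WB.NN

namespace N1

variable {α : Type} [MeasurableSpace α]

theorem pi_all' (ν : Measure α) [IsProbabilityMeasure ν] (N : ℕ)
    (A : Set α) : Measure.pi (fun _ : Fin N => ν) {x | ∀ c, x c ∉ A} = (ν Aᶜ) ^ N := by
  have h : {x : Fin N → α | ∀ c, x c ∉ A} = Set.pi Set.univ (fun _ => Aᶜ) := by
    ext x; simp
  rw [h, Measure.pi_pi]
  simp

theorem measSet (M : ℕ) (A : α → Set α)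
    (hA : MeasurableSet {p : α × α | p.2 ∈ A p.1}) :
    MeasurableSet {p : α × (Fin M → α) | ∀ c, p.2 c ∉ A p.1} := by
  rw [Set.ofPred_forall]
  refine MeasurableSet.iInter fun c => ?_
  have hm : Measurable (fun p : α × (Fin M → α) => (p.1, p.2 c)) :=
    measurable_fst.prodMk ((measurable_pi_apply c).comp measurable_snd)
  exact (hm hA).compl

/-- One distinguished coordinate, and a set depending on it. -/
theorem one (ν : Measure α) [IsProbabilityMeasure ν] (M : ℕ)
    (a : Fin (M + 1)) (g : α → ENNReal) (hg : Measurable g) (A : α → Set α)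
    (hA : MeasurableSet {p : α × α | p.2 ∈ A p.1}) :
    ∫⁻ x, g (x a) * {x : Fin (M + 1) → α | ∀ c, c ≠ a → x c ∉ A (x a)}.indicator 1 x
      ∂(Measure.pi fun _ => ν) = ∫⁻ y, g y * (ν (A y)ᶜ) ^ M ∂ν := by
  have hmp := measurePreserving_piFinSuccAbove (fun _ : Fin (M + 1) => ν) a
  set F : α × (Fin M → α) → ENNReal := fun p =>
    g p.1 * {p : α × (Fin M → α) | ∀ c, p.2 c ∉ A p.1}.indicator 1 p with hF
  have hFm : Measurable F :=
    (hg.comp measurable_fst).mul (measurable_one.indicator (measSet M A hA))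
  have h1 : ∀ x : Fin (M + 1) → α,
      g (x a) * {x : Fin (M + 1) → α | ∀ c, c ≠ a → x c ∉ A (x a)}.indicator 1 x =
        F (MeasurableEquiv.piFinSuccAbove (fun _ => α) a x) := by
    intro x
    simp only [hF, MeasurableEquiv.piFinSuccAbove_apply, Fin.insertNthEquiv_symm_apply]
    congr 1
    simp only [Set.indicator, Set.mem_ofPred_eq, Fin.removeNth_apply]
    congr 1
    apply propext
    constructor
    · intro h c
      exact h _ (Fin.succAbove_ne a c)
    · intro h c hc
      obtain ⟨c', rfl⟩ := Fin.exists_succAbove_eq hc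
      exact h c'
  simp_rw [h1]
  rw [hmp.lintegral_comp hFm, lintegral_prod _ hFm.aemeasurable]
  refine lintegral_congr fun y => ?_
  simp only [hF]
  have h2 : ∀ z : Fin M → α, {p : α × (Fin M → α) | ∀ c, p.2 c ∉ A p.1}.indicator
      (1 : α × (Fin M → α) → ENNReal) (y, z) =
      {z : Fin M → α | ∀ c, z c ∉ A y}.indicator 1 z := fun z => rfl
  simp_rw [h2]
  have h3 : MeasurableSet {z : Fin M → α | ∀ c, z c ∉ A y} :=
    (measurable_const.prodMk measurable_id : Measurable fun z : Fin M → α => (y, z))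
      (measSet M A hA)
  rw [lintegral_const_mul _ (measurable_one.indicator h3), lintegral_indicator_one h3, pi_all']

end N1

theorem pi_all {α : Type} [MeasurableSpace α] (ν : Measure α) [IsProbabilityMeasure ν] (N : ℕ)
    (A : Set α) : Measure.pi (fun _ : Fin N => ν) {x | ∀ c, x c ∉ A} = (ν Aᶜ) ^ N :=
  N1.pi_all' ν N A

theorem lint_one {α : Type} [MeasurableSpace α] (ν : Measure α) [IsProbabilityMeasure ν] (M : ℕ)
    (a : Fin (M + 1)) (g : α → ENNReal) (hg : Measurable g) (A : Set α) (hA : MeasurableSet A) :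
    ∫⁻ x, g (x a) * {x : Fin (M + 1) → α | ∀ c, c ≠ a → x c ∉ A}.indicator 1 x
      ∂(Measure.pi fun _ => ν) = (∫⁻ y, g y ∂ν) * (ν Aᶜ) ^ M := by
  rw [N1.one ν M a g hg (fun _ => A) (measurable_snd hA), lintegral_mul_const _ hg]

theorem lint_pair {α : Type} [MeasurableSpace α] (ν : Measure α) [IsProbabilityMeasure ν] (M : ℕ)
    (a b : Fin (M + 2)) (hab : a ≠ b) (g : α × α → ENNReal) (hg : Measurable g)
    (A : α × α → Set α) (hA : MeasurableSet {p : (α × α) × α | p.2 ∈ A p.1}) :
    ∫⁻ x, g (x a, x b) * {x : Fin (M + 2) → α | ∀ c, c ≠ a → c ≠ b → x c ∉ A (x a, x b)}.indicator 1 x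
      ∂(Measure.pi fun _ => ν) = ∫⁻ p, g p * (ν (A p)ᶜ) ^ M ∂(ν.prod ν) := by
  obtain ⟨b', rfl⟩ := Fin.exists_succAbove_eq hab.symm
  have hmp := measurePreserving_piFinSuccAbove (fun _ : Fin (M + 2) => ν) a
  set F : α × (Fin (M + 1) → α) → ENNReal := fun p =>
    g (p.1, p.2 b') * {p : α × (Fin (M + 1) → α) |
      ∀ c, c ≠ b' → p.2 c ∉ A (p.1, p.2 b')}.indicator 1 p with hF
  have hset : MeasurableSet {p : α × (Fin (M + 1) → α) |
      ∀ c, c ≠ b' → p.2 c ∉ A (p.1, p.2 b')} := by
    rw [Set.ofPred_forall]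
    refine MeasurableSet.iInter fun c => ?_
    by_cases hc : c ≠ b'
    · have hm : Measurable (fun p : α × (Fin (M + 1) → α) => ((p.1, p.2 b'), p.2 c)) :=
        (measurable_fst.prodMk ((measurable_pi_apply b').comp measurable_snd)).prodMk
          ((measurable_pi_apply c).comp measurable_snd)
      have := (hm hA).compl
      convert this using 1
      ext p
      simp [hc]
    · convert MeasurableSet.univ
      ext p
      simp [hc]
  have hFm : Measurable F :=
    (hg.comp (measurable_fst.prodMk ((measurable_pi_apply b').comp measurable_snd))).mul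
      (measurable_one.indicator hset)
  have h1 : ∀ x : Fin (M + 2) → α,
      g (x a, x (a.succAbove b')) * {x : Fin (M + 2) → α |
        ∀ c, c ≠ a → c ≠ a.succAbove b' → x c ∉ A (x a, x (a.succAbove b'))}.indicator 1 x =
        F (MeasurableEquiv.piFinSuccAbove (fun _ => α) a x) := by
    intro x
    simp only [hF, MeasurableEquiv.piFinSuccAbove_apply, Fin.insertNthEquiv_symm_apply]
    simp only [Set.indicator, Set.mem_ofPred_eq, Fin.removeNth_apply]
    congr 2
    apply propext
    constructor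
    · intro h c hc
      exact h _ (Fin.succAbove_ne a c) (fun e => hc (Fin.succAbove_right_injective e))
    · intro h c hc hcb
      obtain ⟨c', rfl⟩ := Fin.exists_succAbove_eq hc
      exact h c' (fun e => hcb (by rw [e]))
  simp_rw [h1]
  rw [hmp.lintegral_comp hFm, lintegral_prod _ hFm.aemeasurable]
  have hνm : Measurable (fun p : α × α => ν (A p)ᶜ) :=
    measurable_measure_prodMk_left (s := {p : (α × α) × α | p.2 ∈ A p.1}ᶜ) hA.compl
  have hGm : Measurable (fun p : α × α => g p * ν (A p)ᶜ ^ M) := hg.mul (hνm.pow_const M)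
  rw [lintegral_prod _ hGm.aemeasurable]
  refine lintegral_congr fun y => ?_
  have hAy : MeasurableSet {p : α × α | p.2 ∈ A (y, p.1)} :=
    ((measurable_const.prodMk measurable_fst).prodMk measurable_snd :
      Measurable fun p : α × α => ((y, p.1), p.2)) hA
  exact N1.one ν M b' (fun z => g (y, z)) (hg.comp (measurable_const.prodMk measurable_id))
    (fun z => A (y, z)) hAy

end Pool.Agent.helper21.WB.NN
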