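/-
helper22.  [MD3] of helper88's part M of MP_7b8095_gt: a weakly quasisymmetric homeomorphism of
`ℝ³` is differentiable with invertible derivative on a set which is not a null set.
-/
import Pool.Agent.helper30.WB.MD1
import Pool.Agent.helper2.WB.MD2

set_option autoImplicit false
open Matrix MeasureTheory Filter Topology Set
open scoped ENNReal

namespace Pool.Agent.helper88.WB
open Pool.Agent.helper21.WB
open Pool.Agent.helper30.WB

namespace MD3

/-- `density of ν at scale |x-y| ≤ (H |f x - f y|/|x-y|)³` -/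
theorem le_cube {H : ℝ} (f : E ≃ₜ E) (hf : WQS H f) {x y : E} (hxy : x ≠ y) :
    dn (Measure.map f.symm (volume : Measure E)) ‖x - y‖ x ≤
      ENNReal.ofReal (H * ‖f x - f y‖ / ‖x - y‖) ^ 3 := by
  have hH := one_le_H f hf
  have hr : 0 < ‖x - y‖ := norm_pos_iff.2 (sub_ne_zero.2 hxy)
  set c : ℝ≥0∞ := (volume : Measure E) (Metric.ball 0 1) with hc
  have hc0 : c ≠ 0 := (Metric.measure_ball_pos _ _ one_pos).ne'
  have hct : c ≠ ∞ := measure_ball_lt_top.ne
  unfold dn
  rw [volume_closedBall_eq x hr.le, ← hc]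
  have h0 : ENNReal.ofReal (‖x - y‖ ^ 3) ≠ 0 := by
    simp only [ne_eq, ENNReal.ofReal_eq_zero, not_le]; positivity
  apply ENNReal.div_le_of_le_mul
  rw [Measure.map_apply f.symm.continuous.measurable measurableSet_closedBall]
  have hsub : f.symm ⁻¹' Metric.closedBall x ‖x - y‖ ⊆ Metric.closedBall (f x) (H * ‖f x - f y‖) := by
    intro w hw
    simp only [mem_preimage, Metric.mem_closedBall] at hw ⊢
    have h1 : ‖x - f.symm w‖ ≤ ‖x - y‖ := by
      rw [← dist_eq_norm, dist_comm]; exact hw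
    have h2 := hf x (f.symm w) y h1
    rw [f.apply_symm_apply] at h2
    rw [dist_comm, dist_eq_norm]
    exact h2
  calc _ ≤ volume (Metric.closedBall (f x) (H * ‖f x - f y‖)) := measure_mono hsub
    _ = ENNReal.ofReal ((H * ‖f x - f y‖) ^ 3) * c := by
        rw [volume_closedBall_eq _ (by positivity)]
    _ = _ := by
        rw [← ENNReal.ofReal_pow (by positivity), ← mul_assoc, ← ENNReal.ofReal_mul (by positivity)]
        congr 2
        field_simp

theorem injective_of_lower {f : E → E} {x : E} {L : E →L[ℝ] E} (hL : HasFDerivAt f L x) {c : ℝ}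
    (hc : 0 < c) (h : ∀ᶠ y in 𝓝 x, c * ‖y - x‖ ≤ ‖f y - f x‖) : Function.Injective L := by
  rw [injective_iff_map_eq_zero]
  intro v hv
  by_contra hne
  have hv0 : 0 < ‖v‖ := norm_pos_iff.2 hne
  have h1 : ∀ᶠ y in 𝓝 x, ‖f y - f x - L (y - x)‖ ≤ c / 2 * ‖y - x‖ :=
    hL.isLittleO.def (half_pos hc)
  have h2 := h.and h1
  have h3 : Tendsto (fun t : ℝ => x + t • v) (𝓝[>] 0) (𝓝 x) := by
    have : Tendsto (fun t : ℝ => x + t • v) (𝓝 0) (𝓝 (x + (0 : ℝ) • v)) :=
      Continuous.tendsto (by fun_prop) 0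
    rw [zero_smul, add_zero] at this
    exact this.mono_left nhdsWithin_le_nhds
  have h4 := (h3.eventually h2).and self_mem_nhdsWithin
  obtain ⟨t, ⟨h5, h6⟩, h7⟩ := h4.exists
  have h7' : 0 < t := h7
  rw [add_sub_cancel_left] at h5 h6
  rw [map_smul, hv, smul_zero, sub_zero] at h6
  have h8 : 0 < ‖t • v‖ := by
    rw [norm_smul, Real.norm_of_nonneg h7'.le]; positivity
  nlinarith

end MD3

open MD3 in
/-- [MD3] from MD1, MD2 -/
theorem exists_diff {H : ℝ} (f : E ≃ₜ E) (hf : WQS H f) (N : Set E) (hN : (volume : Measure E) N = 0) :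
    ∃ x : E, x ∉ N ∧ ∃ A : E ≃L[ℝ] E, HasFDerivAt f (A : E →L[ℝ] E) x := by
  by_contra hcon
  push Not at hcon
  set ν : Measure E := Measure.map f.symm (volume : Measure E) with hνdef
  have hlf : IsLocallyFiniteMeasure ν := by
    refine ⟨fun x => ?_⟩
    refine ⟨Metric.closedBall x 1, Metric.closedBall_mem_nhds x one_pos, ?_⟩
    rw [hνdef, Measure.map_apply f.symm.continuous.measurable measurableSet_closedBall]
    have : f.symm ⁻¹' Metric.closedBall x 1 = f '' Metric.closedBall x 1 := by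
      rw [f.image_eq_preimage_symm]
    rw [this]
    exact ((isCompact_closedBall x 1).image f.continuous).measure_lt_top
  have hH := one_le_H f hf
  apply not_mutuallySingular f hf
  rw [← hνdef, ← Measure.rnDeriv_eq_zero]
  filter_upwards [Besicovitch.ae_tendsto_rnDeriv ν (volume : Measure E),
    Measure.rnDeriv_lt_top ν (volume : Measure E), stepanov f,
    measure_eq_zero_iff_ae_notMem.1 hN] with x hx hxt hst hxN
  by_contra hne
  simp only [Pi.zero_apply] at hne
  set ρ : ℝ≥0∞ := ν.rnDeriv volume x with hρ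
  -- scale function
  have hsc : Tendsto (fun y : E => ‖x - y‖) (𝓝[≠] x) (𝓝[>] 0) := by
    rw [tendsto_nhdsWithin_iff]
    constructor
    · have : Tendsto (fun y : E => ‖x - y‖) (𝓝 x) (𝓝 ‖x - x‖) :=
        Continuous.tendsto (by fun_prop) x
      rw [sub_self, norm_zero] at this
      exact this.mono_left nhdsWithin_le_nhds
    · filter_upwards [self_mem_nhdsWithin] with y hy
      exact norm_pos_iff.2 (sub_ne_zero.2 (Ne.symm hy))
  have hd : Tendsto (fun y : E => dn ν ‖x - y‖ x) (𝓝[≠] x) (𝓝 ρ) := hx.comp hsc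
  -- upper bound
  have hup : ∃ C : ℝ, ∀ᶠ y in 𝓝 x, ‖f y - f x‖ ≤ C * ‖y - x‖ := by
    obtain ⟨K, hK⟩ : ∃ K : ℝ≥0∞, K ^ 3 > ρ ∧ K ≠ ∞ := by
      refine ⟨ρ + 1, ?_, by simp [hxt.ne]⟩
      calc ρ < ρ + 1 := ENNReal.lt_add_right hxt.ne one_ne_zero
        _ ≤ (ρ + 1) ^ 3 := le_self_pow (by simp) (by norm_num)
    refine ⟨2 * H * K.toReal, ?_⟩
    have h1 : ∀ᶠ y in 𝓝[≠] x, dn ν ‖x - y‖ x < K ^ 3 := hd.eventually (gt_mem_nhds hK.1)
    rw [eventually_nhdsWithin_iff] at h1
    filter_upwards [h1] with y hy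
    by_cases hyx : y = x
    · subst hyx; simp
    · have h2 := (cube_le f hf (Ne.symm hyx)).trans (hy hyx).le
      have hr : 0 < ‖x - y‖ := norm_pos_iff.2 (sub_ne_zero.2 (Ne.symm hyx))
      have h3 : ENNReal.ofReal (‖f x - f y‖ / (2 * H * ‖x - y‖)) ≤ K :=
        (ENNReal.pow_le_pow_left_iff (by norm_num)).1 h2
      rw [ENNReal.ofReal_le_iff_le_toReal hK.2, div_le_iff₀ (by positivity)] at h3
      rw [norm_sub_rev, norm_sub_rev y x]
      linarith
  -- lower bound
  have hlow : ∃ c : ℝ, 0 < c ∧ ∀ᶠ y in 𝓝 x, c * ‖y - x‖ ≤ ‖f y - f x‖ := by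
    obtain ⟨k, hk0, hk⟩ : ∃ k : ℝ, 0 < k ∧ ENNReal.ofReal k ^ 3 < ρ := by
      have hp : 0 < ρ := pos_iff_ne_zero.2 hne
      have h1 : Tendsto (fun k : ℝ => ENNReal.ofReal k ^ 3) (𝓝[>] 0) (𝓝 (ENNReal.ofReal 0 ^ 3)) := by
        have : Continuous (fun k : ℝ => ENNReal.ofReal k ^ 3) :=
          (ENNReal.continuous_pow 3).comp ENNReal.continuous_ofReal
        exact (this.tendsto 0).mono_left nhdsWithin_le_nhds
      rw [ENNReal.ofReal_zero, zero_pow (by norm_num)] at h1
      obtain ⟨k, hk⟩ := ((h1.eventually (gt_mem_nhds hp)).and self_mem_nhdsWithin).exists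
      exact ⟨k, hk.2, hk.1⟩
    refine ⟨k / H, by positivity, ?_⟩
    have h1 : ∀ᶠ y in 𝓝[≠] x, ENNReal.ofReal k ^ 3 < dn ν ‖x - y‖ x :=
      hd.eventually (lt_mem_nhds hk)
    rw [eventually_nhdsWithin_iff] at h1
    filter_upwards [h1] with y hy
    by_cases hyx : y = x
    · subst hyx; simp
    · have h2 := (hy hyx).le.trans (le_cube f hf (Ne.symm hyx))
      have hr : 0 < ‖x - y‖ := norm_pos_iff.2 (sub_ne_zero.2 (Ne.symm hyx))
      have h3 : ENNReal.ofReal k ≤ ENNReal.ofReal (H * ‖f x - f y‖ / ‖x - y‖) :=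
        (ENNReal.pow_le_pow_left_iff (by norm_num)).1 h2
      rw [ENNReal.ofReal_le_ofReal_iff (by positivity), le_div_iff₀ hr] at h3
      rw [norm_sub_rev, norm_sub_rev (f y), div_mul_eq_mul_div, div_le_iff₀ (by positivity)]
      linarith
  obtain ⟨C, hC⟩ := hup
  obtain ⟨r, hr, hC⟩ := Metric.eventually_nhds_iff.1 hC
  have hdiff : DifferentiableAt ℝ f x := hst ⟨C, r, hr, fun y hy => hC hy⟩
  obtain ⟨c, hc, hlow⟩ := hlow
  have hinj := injective_of_lower hdiff.hasFDerivAt hc hlow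
  set L : E →ₗ[ℝ] E := (fderiv ℝ f x : E →L[ℝ] E).toLinearMap with hL
  let A : E ≃L[ℝ] E := (LinearEquiv.ofInjectiveEndo L hinj).toContinuousLinearEquiv
  refine hcon x hxN A ?_
  have : (A : E →L[ℝ] E) = fderiv ℝ f x := by
    ext v
    rfl
  rw [this]
  exact hdiff.hasFDerivAt

end Pool.Agent.helper88.WB
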