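/-
helper22.  [R2-8] of helper7's part R2 of MP_7b8095_gt: comparison of horospherical distances,
from the statement of `T_near`.
-/
import Pool.Agent.helper22.WB.R2_2
import Pool.Agent.helper19.WB.B1a

set_option autoImplicit false
open Matrix MeasureTheory

namespace Pool.Agent.helper7.WB
open Pool.Agent.helper21.WB

namespace R28

open Fl

theorem hd_le_of_ch {x y : X} {t : ℝ} (ht : 0 ≤ t) (h : ch x y ≤ Real.cosh t) : hd x y ≤ t := by
  rw [← cosh_hd, Real.cosh_le_cosh, abs_of_nonneg (hd_nonneg x y), abs_of_nonneg ht] at h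
  exact h

theorem log_lip {ξ : I → ℝ} (h : NullF ξ) (x y : X) :
    |Real.log (hb ξ x) - Real.log (hb ξ y)| ≤ hd x y := by
  have h1 := ch_eq_fl h x y
  have hx := pos h x
  have hy := pos h y
  have h2 : Real.cosh (Real.log (hb ξ x) - Real.log (hb ξ y)) ≤ Real.cosh (hd x y) := by
    rw [cosh_hd, h1]
    have : 0 ≤ hb ξ x * hb ξ y * fl ξ x y ^ 2 / 2 := by positivity
    linarith
  rw [Real.cosh_le_cosh, abs_of_nonneg (hd_nonneg x y)] at h2
  exact h2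

theorem fl_self {ξ : I → ℝ} (h : NullF ξ) (x : X) : fl ξ x x = 0 := by
  rw [fl_eq h, sub_self]
  have : bl (0 : I → ℝ) 0 = 0 := by rw [bl_apply]; simp
  rw [this, Real.sqrt_zero]

theorem hd_mv' {ξ : I → ℝ} (h : NullF ξ) (t : ℝ) (y : X) : hd y (mv ξ t y) ≤ |t| := by
  have hy := pos h y
  have hz : mv ξ 0 y = y := by
    apply lift_injective
    rw [lmv h]
    simp
  have h1 : fl ξ y (mv ξ t y) = 0 := by
    have := fl_mv h 0 t y y
    rw [hz, fl_self h] at this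
    exact this
  apply hd_le_of_ch (abs_nonneg t)
  rw [ch_eq_fl h, h1, hmv h, Real.log_mul (Real.exp_pos _).ne' hy.ne', Real.log_exp, Real.cosh_abs]
  have : Real.log (hb ξ y) - (-t + Real.log (hb ξ y)) = t := by ring
  rw [this]; simp

/-- crude bound for `fl` -/
theorem fl_bound {ξ : I → ℝ} (h : NullF ξ) {x y : X} (hx : -3 ≤ Real.log (hb ξ x))
    (hy : -3 ≤ Real.log (hb ξ y)) (hd2 : hd x y ≤ 2) : fl ξ x y ≤ 2 * Real.exp 4 := by
  have px := pos h x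
  have py := pos h y
  have hx' : Real.exp (-3) ≤ hb ξ x := by
    rwa [← Real.le_log_iff_exp_le px]
  have hy' : Real.exp (-3) ≤ hb ξ y := by
    rwa [← Real.le_log_iff_exp_le py]
  have h1 := ch_eq_fl h x y
  have h2 : ch x y ≤ Real.exp 2 := by
    rw [← cosh_hd]
    have h3 : Real.cosh (hd x y) ≤ Real.cosh 2 := by
      rw [Real.cosh_le_cosh, abs_of_nonneg (hd_nonneg x y), abs_of_nonneg (by norm_num)]
      exact hd2
    refine h3.trans ?_
    rw [Real.cosh_eq]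
    have : Real.exp (-2) ≤ Real.exp 2 := Real.exp_le_exp.2 (by norm_num)
    linarith
  have h3 : 0 < Real.cosh (Real.log (hb ξ x) - Real.log (hb ξ y)) := Real.cosh_pos _
  have h4 : hb ξ x * hb ξ y * fl ξ x y ^ 2 ≤ 2 * Real.exp 2 := by linarith
  have h5 : Real.exp (-3) * Real.exp (-3) * fl ξ x y ^ 2 ≤ hb ξ x * hb ξ y * fl ξ x y ^ 2 := by
    have := Real.exp_pos (-3)
    gcongr
  have h6 : Real.exp 6 * (Real.exp (-3) * Real.exp (-3)) = 1 := by
    rw [← Real.exp_add, ← Real.exp_add]; norm_num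
  have h7 : fl ξ x y ^ 2 ≤ Real.exp 6 * (2 * Real.exp 2) := by
    calc fl ξ x y ^ 2 = Real.exp 6 * (Real.exp (-3) * Real.exp (-3) * fl ξ x y ^ 2) := by
          rw [← mul_assoc, h6, one_mul]
      _ ≤ Real.exp 6 * (2 * Real.exp 2) :=
          mul_le_mul_of_nonneg_left (h5.trans h4) (Real.exp_pos 6).le
  have h8 : Real.exp 6 * (2 * Real.exp 2) ≤ (2 * Real.exp 4) ^ 2 := by
    have e1 : Real.exp 6 * Real.exp 2 = Real.exp 8 := by rw [← Real.exp_add]; norm_num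
    have e2 : Real.exp 4 * Real.exp 4 = Real.exp 8 := by rw [← Real.exp_add]; norm_num
    have := Real.exp_pos 8
    nlinarith
  exact le_of_sq_le_sq (h7.trans h8) (by positivity)

theorem cosh_one_ge : (3 / 2 : ℝ) ≤ Real.cosh 1 := by
  have h1 := Real.exp_one_gt_d9
  have h2 := Real.exp_one_lt_d9
  have h3 : Real.exp 1 * Real.exp (-1) = 1 := by rw [← Real.exp_add]; simp
  rw [Real.cosh_eq]
  have h4 := Real.exp_pos (-1)
  nlinarith

/-- the statement of `T_near` -/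
def TNear : Prop := ∀ (D L ε : ℝ) (_ : 24 ≤ D) (_ : 0 < ε), ∃ ρ₀ : ℝ, 0 < ρ₀ ∧
    ∀ {Γ Γ' : Subgroup GLI} {φ : Γ ≃* Γ'} {P : Type} {q q' : P → GLI} {Ξ Ξ' : Set (I → ℝ)} {η ρ : ℝ},
      ρ ≤ ρ₀ → Mt Γ Γ' φ q q' Ξ Ξ' η D ρ → ∀ σ τ, hd (act (q σ) 0) (act (q τ) 0) ≤ L →
      ∀ x, hd x (act (q σ) 0) ≤ L → sm x ((Tr q q' σ)⁻¹ * Tr q q' τ) ≤ ε ∧
        hd (act (Tr q q' σ) x) (act (Tr q q' τ) x) ≤ ε

theorem main (hT : TNear) : ∃ K : ℝ, 1 ≤ K ∧ ∀ D : ℝ, 24 ≤ D → ∃ ρ₀ : ℝ, 0 < ρ₀ ∧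
    ∀ {Γ Γ' : Subgroup GLI} {φ : Γ ≃* Γ'} {P : Type} {q q' : P → GLI}
      {Ξ Ξ' : Set (I → ℝ)} {η ρ : ℝ}, ρ ≤ ρ₀ → Mt Γ Γ' φ q q' Ξ Ξ' η D ρ →
      ∀ ξ ∈ Ξ, ∀ ξ' ∈ Ξ', Mh q q' D 1 ξ ξ' → ∀ (x y : X) (σ τ : P), |Real.log (hb ξ x)| ≤ 1 →
        |Real.log (hb ξ y)| ≤ 1 → hd x (act (q σ) 0) ≤ D / 8 → hd y (act (q τ) 0) ≤ D / 8 →
        fl ξ' (act (Tr q q' σ) x) (act (Tr q q' τ) y) ≤ K * (fl ξ x y + 1) := by
  refine ⟨8 * Real.exp 4, ?_, fun D hD => ?_⟩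
  · have : 1 ≤ Real.exp 4 := Real.one_le_exp (by norm_num)
    linarith
  obtain ⟨ρ₀, hρ₀, H⟩ := hT D D 1 hD one_pos
  refine ⟨ρ₀, hρ₀, ?_⟩
  intro Γ Γ' φ P q q' Ξ Ξ' η ρ hρ hM ξ hξ ξ' hξ' hMh x y σ τ hx hy hσ hτ
  have hn : NullF ξ := hM.horo.horo.null ξ hξ
  have hn' : NullF ξ' := hM.horo'.horo.null ξ' hξ'
  have hInT : ∀ σ, InG (Tr q q' σ) := fun σ => (hM.mf.inG' σ).mul (hM.mf.inG σ).inv
  have near := H hρ hM
  -- projections to the horosphere
  have proj : ∀ w : X, |Real.log (hb ξ w)| ≤ 1 → ∃ w₁ : X, hb ξ w₁ = 1 ∧ hd w w₁ ≤ 1 ∧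
      ∃ t, w₁ = mv ξ t w := by
    intro w hw
    refine ⟨mv ξ (Real.log (hb ξ w)) w, ?_, (hd_mv' hn _ w).trans hw, _, rfl⟩
    rw [hmv hn, Real.exp_neg, Real.exp_log (pos hn w)]
    exact inv_mul_cancel₀ (pos hn w).ne'
  obtain ⟨x₁, hx1, hxx1, s, hs⟩ := proj x hx
  obtain ⟨y₁, hy1, hyy1, t, ht⟩ := proj y hy
  have hfl : fl ξ x₁ y₁ = fl ξ x y := by rw [hs, ht, fl_mv hn]
  -- subdivision
  set m : ℕ := ⌈fl ξ x y⌉₊ + 1 with hm
  have hm0 : 0 < m := Nat.succ_pos _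
  have hm' : (0 : ℝ) < m := by exact_mod_cast hm0
  have hflm : fl ξ x y ≤ m := by
    rw [hm]; push_cast
    linarith [Nat.le_ceil (fl ξ x y)]
  have hmle : (m : ℝ) ≤ fl ξ x y + 2 := by
    rw [hm]; push_cast
    linarith [Nat.ceil_lt_add_one (fl_nonneg ξ x y)]
  obtain ⟨z, hz0, hzm, hzh, hzs⟩ := fl_subdiv hn hx1 hy1 m hm0
  have hstep : ∀ k, k < m → hd (z k) (z (k + 1)) ≤ 1 := by
    intro k hk
    apply hd_le_of_ch zero_le_one
    rw [ch_eq_fl hn, hzh, hzh, hzs k hk, hfl]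
    simp only [Real.log_one, sub_zero, Real.cosh_zero, one_mul]
    have h1 : fl ξ x y / m ≤ 1 := by rw [div_le_one hm']; exact hflm
    have h0 : 0 ≤ fl ξ x y / m := div_nonneg (fl_nonneg ξ x y) hm'.le
    have h2 : (fl ξ x y / m) ^ 2 ≤ 1 := by nlinarith
    linarith [cosh_one_ge]
  have hout : ∀ k, z k ∈ Out Ξ := by
    intro k ζ hζ
    by_contra hc
    have := hM.horo.horo.disj ζ hζ ξ hξ (z k) (not_le.1 hc).le (hzh k).le
    rw [this, hzh] at hc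
    exact hc le_rfl
  have hdens : ∀ k, ∃ σ, hd (z k) (act (q σ) 0) ≤ D / 16 := fun k => hM.dense _ (hout k)
  choose c hc using hdens
  set z' : ℕ → X := fun k => act (Tr q q' (c k)) (z k) with hz'
  have hlog : ∀ k, |Real.log (hb ξ' (z' k))| ≤ 1 := fun k =>
    (hMh (z k) (hzh k) (c k) ((hc k).trans (by linarith))).1
  -- comparing two images
  have cmp : ∀ (u v : X) (α β : P), hd u v ≤ 1 → hd u (act (q α) 0) ≤ D / 8 →
      hd v (act (q β) 0) ≤ D / 8 → hd (act (Tr q q' α) u) (act (Tr q q' β) v) ≤ 2 := by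
    intro u v α β huv hu hv
    have h1 : hd v (act (q α) 0) ≤ D := by
      have := hd_triangle v u (act (q α) 0)
      rw [hd_comm v u] at this
      linarith
    have h2 : hd (act (q α) 0) (act (q β) 0) ≤ D := by
      have h3 := hd_triangle (act (q α) 0) u (act (q β) 0)
      have h4 := hd_triangle u v (act (q β) 0)
      rw [hd_comm (act (q α) 0) u] at h3
      linarith
    have h3 := (near α β h2 v h1).2
    have h4 := hd_triangle (act (Tr q q' α) u) (act (Tr q q' α) v) (act (Tr q q' β) v)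
    rw [hd_act (hInT α)] at h4
    linarith
  have hstep' : ∀ k, k < m → fl ξ' (z' k) (z' (k + 1)) ≤ 2 * Real.exp 4 := by
    intro k hk
    apply fl_bound hn' (by have := abs_le.1 (hlog k); linarith)
      (by have := abs_le.1 (hlog (k + 1)); linarith)
    exact cmp _ _ _ _ (hstep k hk) ((hc k).trans (by linarith)) ((hc (k + 1)).trans (by linarith))
  have hchain : ∀ k, k ≤ m → fl ξ' (z' 0) (z' k) ≤ k * (2 * Real.exp 4) := by
    intro k
    induction k with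
    | zero => intro _; rw [fl_self hn']; simp
    | succ k ih =>
      intro hk
      have h1 := ih (by omega)
      have h2 := fl_triangle hn' (z' 0) (z' k) (z' (k + 1))
      have h3 := hstep' k (by omega)
      push_cast
      linarith
  -- the ends
  have hend : ∀ (w w₁ : X) (α β : P), hd w w₁ ≤ 1 → hd w (act (q α) 0) ≤ D / 8 →
      hd w₁ (act (q β) 0) ≤ D / 8 → |Real.log (hb ξ' (act (Tr q q' β) w₁))| ≤ 1 →
      fl ξ' (act (Tr q q' α) w) (act (Tr q q' β) w₁) ≤ 2 * Real.exp 4 := by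
    intro w w₁ α β h1 h2 h3 h4
    have h5 := cmp w w₁ α β h1 h2 h3
    have h6 := log_lip hn' (act (Tr q q' α) w) (act (Tr q q' β) w₁)
    have h7 := (abs_le.1 h6).1
    have h8 := (abs_le.1 h4).1
    exact fl_bound hn' (by linarith) (by linarith) h5
  have e1 : fl ξ' (act (Tr q q' σ) x) (z' 0) ≤ 2 * Real.exp 4 := by
    have h0 := hlog 0
    have h1 := hc 0
    simp only [hz'] at h0 ⊢
    rw [hz0] at h0 h1 ⊢
    exact hend x x₁ σ (c 0) hxx1 hσ (h1.trans (by linarith)) h0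
  have e2 : fl ξ' (z' m) (act (Tr q q' τ) y) ≤ 2 * Real.exp 4 := by
    have h0 := hlog m
    have h1 := hc m
    simp only [hz'] at h0 ⊢
    rw [hzm] at h0 h1 ⊢
    rw [fl_comm]
    exact hend y y₁ τ (c m) hyy1 hτ (h1.trans (by linarith)) h0
  have t1 := fl_triangle hn' (act (Tr q q' σ) x) (z' 0) (act (Tr q q' τ) y)
  have t2 := fl_triangle hn' (z' 0) (z' m) (act (Tr q q' τ) y)
  have t3 := hchain m le_rfl
  have hB := Real.exp_pos 4
  have hf := fl_nonneg ξ x y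
  have t4 : (m : ℝ) * (2 * Real.exp 4) ≤ (fl ξ x y + 2) * (2 * Real.exp 4) := by gcongr
  nlinarith

end R28

end Pool.Agent.helper7.WB
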