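/-
helper22.  [R2-8] of helper7's part R2 of MP_7b8095_gt: comparison of horospherical distances.
-/
import Pool.Agent.helper22.WB.R2_8core
import Pool.Agent.helper9.WB.R2_4T

set_option autoImplicit false
open Matrix MeasureTheory

namespace Pool.Agent.helper7.WB
open Pool.Agent.helper21.WB

theorem fl_le : ∃ K : ℝ, 1 ≤ K ∧ ∀ D : ℝ, 24 ≤ D → ∃ ρ₀ : ℝ, 0 < ρ₀ ∧
    ∀ {Γ Γ' : Subgroup GLI} {φ : Γ ≃* Γ'} {P : Type} {q q' : P → GLI}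
      {Ξ Ξ' : Set (I → ℝ)} {η ρ : ℝ}, ρ ≤ ρ₀ → Mt Γ Γ' φ q q' Ξ Ξ' η D ρ →
      ∀ ξ ∈ Ξ, ∀ ξ' ∈ Ξ', Mh q q' D 1 ξ ξ' → ∀ (x y : X) (σ τ : P), |Real.log (hb ξ x)| ≤ 1 →
        |Real.log (hb ξ y)| ≤ 1 → hd x (act (q σ) 0) ≤ D / 8 → hd y (act (q τ) 0) ≤ D / 8 →
        fl ξ' (act (Tr q q' σ) x) (act (Tr q q' τ) y) ≤ K * (fl ξ x y + 1) :=
  R28.main T_near

end Pool.Agent.helper7.WB
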